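import Mathlib

/-! A minimax principle for concave-like families of functions, with an ultrafilter hypothesis in
place of compactness and semicontinuity. -/

open Filter Set
open scoped Topology

namespace Pool.Agent.Lib.W88

variable {X W : Type*}

/-- Finite subcover from the ultrafilter hypothesis. -/
theorem exists_finset_of_ultra (K : Set X) (P : W → X → Prop)
    (hU : ∀ U : Ultrafilter X, K ∈ U → ∃ w, ∀ᶠ x in (U : Filter X), P w x) :
    ∃ s : Finset W, ∀ x ∈ K, ∃ w ∈ s, P w x := by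
  classical
  by_contra hn
  push Not at hn
  let T : Finset W → Set X := fun s => {x | x ∈ K ∧ ∀ w ∈ s, ¬ P w x}
  have hne : (⨅ s, 𝓟 (T s) : Filter X).NeBot := by
    refine iInf_neBot_of_directed' (fun s t => ⟨s ∪ t, ?_, ?_⟩) fun s => ?_
    · exact principal_mono.2 fun x hx => ⟨hx.1, fun w hw => hx.2 w (Finset.mem_union_left _ hw)⟩
    · exact principal_mono.2 fun x hx => ⟨hx.1, fun w hw => hx.2 w (Finset.mem_union_right _ hw)⟩
    · obtain ⟨x, hx, h⟩ := hn s
      exact principal_neBot_iff.2 ⟨x, hx, h⟩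
  obtain ⟨U, hle⟩ := Ultrafilter.exists_le (⨅ s, 𝓟 (T s) : Filter X)
  have hT (s : Finset W) : T s ∈ (U : Filter X) :=
    hle (mem_iInf_of_mem s (mem_principal_self _))
  obtain ⟨w, hw⟩ := hU U (mem_of_superset (hT ∅) fun x hx => hx.1)
  obtain ⟨x, h1, h2⟩ := (hw.and (hT {w})).exists
  exact h2.2 w (Finset.mem_singleton_self w) h1

/-- Finite minimax. -/
theorem mmx_fin {ι : Type*} [Fintype ι] {K : Set X} (hK : K.Nonempty) (f : ι → X → ℝ) (ε : ℝ)
    (hc : ∀ x ∈ K, ∀ y ∈ K, ∀ t : ℝ, 0 ≤ t → t ≤ 1 →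
      ∃ z ∈ K, ∀ w, t * f w x + (1 - t) * f w y ≤ f w z)
    (h : ∀ x ∈ K, ∃ w, f w x ≤ ε) :
    ∃ l : ι → ℝ, (∀ w, 0 ≤ l w) ∧ ∑ w, l w = 1 ∧ ∀ x ∈ K, ∑ w, l w * f w x ≤ ε := by
  classical
  let O : Set (ι → ℝ) := {v | ∀ i, ε < v i}
  let C : Set (ι → ℝ) := {v | ∃ x ∈ K, ∀ i, v i ≤ f i x}
  have hO : IsOpen O := by
    have : O = ⋂ i, {v : ι → ℝ | ε < v i} := by ext; simp [O]
    rw [this]
    exact isOpen_iInter_of_finite fun i => isOpen_lt continuous_const (continuous_apply i)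
  have cO : Convex ℝ O := by
    intro u hu v hv a b ha hb hab i
    exact convex_Ioi ε (hu i) (hv i) ha hb hab
  have cC : Convex ℝ C := by
    rintro u ⟨x, hx, hu⟩ v ⟨y, hy, hv⟩ a b ha hb hab
    obtain ⟨z, hz, h1⟩ := hc x hx y hy a ha (by linarith)
    refine ⟨z, hz, fun i => le_trans ?_ (h1 i)⟩
    have e : 1 - a = b := by linarith
    rw [e]
    exact add_le_add (mul_le_mul_of_nonneg_left (hu i) ha) (mul_le_mul_of_nonneg_left (hv i) hb)
  have hd : Disjoint O C := by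
    rw [Set.disjoint_left]
    rintro v h1 ⟨x, hx, h2⟩
    obtain ⟨w, hw⟩ := h x hx
    exact ((h1 w).trans_le (h2 w)).not_ge hw
  obtain ⟨g, u, g1, g2⟩ := geometric_hahn_banach_open cO hO cC hd
  let m : ι → ℝ := fun i => - g (Pi.single i 1)
  have hg (v : ι → ℝ) : g v = - ∑ i, m i * v i := by
    conv_lhs => rw [← Finset.univ_sum_single v]
    rw [map_sum, ← Finset.sum_neg_distrib]
    refine Finset.sum_congr rfl fun i _ => ?_
    have : (Pi.single i (v i) : ι → ℝ) = v i • (Pi.single i 1 : ι → ℝ) := by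
      rw [← Pi.single_smul, smul_eq_mul, mul_one]
    rw [this, map_smul, smul_eq_mul]
    simp only [m]
    ring
  have hm (i : ι) : 0 ≤ m i := by
    by_contra hn
    push Not at hn
    set c := g (fun _ => ε + 1) with hc'
    have hcu : c < u := g1 _ fun j => by linarith
    let t : ℝ := (u - c) / (- m i)
    have ht : 0 ≤ t := div_nonneg (by linarith) (by linarith)
    have h3 := g1 ((fun _ => ε + 1) + t • (Pi.single i 1 : ι → ℝ)) fun j => by
      have : 0 ≤ (Pi.single i (1 : ℝ) : ι → ℝ) j := by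
        rw [Pi.single_apply]; split_ifs <;> norm_num
      have := mul_nonneg ht this
      simp only [Pi.add_apply, Pi.smul_apply, smul_eq_mul]
      linarith
    rw [map_add, map_smul, smul_eq_mul, ← hc'] at h3
    have h4 : g (Pi.single i 1) = - m i := by simp [m]
    have h5 : t * - m i = u - c := div_mul_cancel₀ _ (by linarith)
    rw [h4, h5] at h3
    linarith
  have key (δ : ℝ) (hδ : 0 < δ) (x : X) (hx : x ∈ K) :
      ∑ i, m i * f i x < (∑ i, m i) * (ε + δ) := by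
    have h1 := g1 (fun _ => ε + δ) fun j => by linarith
    have h2 := g2 (fun i => f i x) ⟨x, hx, fun _ => le_rfl⟩
    rw [hg] at h1 h2
    rw [Finset.sum_mul]
    linarith
  have hL : 0 < ∑ i, m i := by
    refine (Finset.sum_nonneg fun i _ => hm i).lt_of_ne fun h0 => ?_
    obtain ⟨x, hx⟩ := hK
    have h1 := key 1 one_pos x hx
    have h2 : ∀ i, m i = 0 := fun i =>
      (Finset.sum_eq_zero_iff_of_nonneg fun i _ => hm i).1 h0.symm i (Finset.mem_univ i)
    simp [h2] at h1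
  refine ⟨fun i => m i / ∑ j, m j, fun i => div_nonneg (hm i) hL.le, ?_, fun x hx => ?_⟩
  · rw [← Finset.sum_div, div_self hL.ne']
  · have e : ∑ w, m w / (∑ j, m j) * f w x = (∑ w, m w * f w x) / ∑ j, m j := by
      rw [Finset.sum_div]
      exact Finset.sum_congr rfl fun w _ => by ring
    rw [e]
    refine le_of_forall_pos_le_add fun δ hδ => ?_
    rw [div_le_iff₀ hL, mul_comm]
    exact (key δ hδ x hx).le

/-- The minimax principle, concave-like form, weights indexed by `Fin n`. -/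
theorem mmx [Nonempty W] (K : Set X) (f : W → X → ℝ) (ε : ℝ)
    (hc : ∀ x ∈ K, ∀ y ∈ K, ∀ t : ℝ, 0 ≤ t → t ≤ 1 →
      ∃ z ∈ K, ∀ w, t * f w x + (1 - t) * f w y ≤ f w z)
    (hU : ∀ U : Ultrafilter X, K ∈ U → ∃ w, ∀ᶠ x in (U : Filter X), f w x ≤ ε) :
    ∃ (n : ℕ) (w : Fin n → W) (l : Fin n → ℝ), (∀ i, 0 ≤ l i) ∧ ∑ i, l i = 1 ∧
      ∀ x ∈ K, ∑ i, l i * f (w i) x ≤ ε := by
  rcases K.eq_empty_or_nonempty with rfl | hK
  · exact ⟨1, fun _ => Classical.arbitrary W, fun _ => 1, fun _ => zero_le_one, by simp, by simp⟩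
  obtain ⟨s, hs⟩ := exists_finset_of_ultra K (fun w x => f w x ≤ ε) hU
  obtain ⟨l, h0, h1, h2⟩ := mmx_fin hK (fun i : Fin s.card => f (s.equivFin.symm i)) ε
    (fun x hx y hy t t0 t1 => (hc x hx y hy t t0 t1).imp fun z hz => ⟨hz.1, fun i => hz.2 _⟩)
    fun x hx => by
      obtain ⟨w, hw, h⟩ := hs x hx
      exact ⟨s.equivFin ⟨w, hw⟩, by simpa using h⟩
  exact ⟨_, fun i => s.equivFin.symm i, l, h0, h1, h2⟩

/-- The same with a finite set of indices. -/
theorem mmx_finset [Nonempty W] (K : Set X) (f : W → X → ℝ) (ε : ℝ)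
    (hc : ∀ x ∈ K, ∀ y ∈ K, ∀ t : ℝ, 0 ≤ t → t ≤ 1 →
      ∃ z ∈ K, ∀ w, t * f w x + (1 - t) * f w y ≤ f w z)
    (hU : ∀ U : Ultrafilter X, K ∈ U → ∃ w, ∀ᶠ x in (U : Filter X), f w x ≤ ε) :
    ∃ (s : Finset W) (l : W → ℝ), (∀ w, 0 ≤ l w) ∧ ∑ w ∈ s, l w = 1 ∧
      ∀ x ∈ K, ∑ w ∈ s, l w * f w x ≤ ε := by
  classical
  obtain ⟨n, w, l, h0, h1, h2⟩ := mmx K f ε hc hU
  refine ⟨Finset.univ.image w, fun v => ∑ i with w i = v, l i,
    fun v => Finset.sum_nonneg fun i _ => h0 i, ?_, fun x hx => ?_⟩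
  · rw [Finset.sum_fiberwise_of_maps_to (fun i hi => Finset.mem_image_of_mem w hi), h1]
  · refine le_of_eq_of_le ?_ (h2 x hx)
    rw [← Finset.sum_fiberwise_of_maps_to (fun i hi => Finset.mem_image_of_mem w hi)
      fun i => l i * f (w i) x]
    refine Finset.sum_congr rfl fun v _ => ?_
    rw [Finset.sum_mul]
    exact Finset.sum_congr rfl fun i hi => by rw [(Finset.mem_filter.1 hi).2]

end Pool.Agent.Lib.W88
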